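import Pool.Agent.Helper68.Res.Block
import Pool.Agent.Helper65.Res.A2

/-!
# Route A: the one-block bracket in the form of `card_le_list`
-/

namespace RouteA

open Finset Res12

set_option linter.unusedSectionVars false

variable {V : Type} [Fintype V] [DecidableEq V]
variable {F P : Finset (Finset V)} {s j : ℕ} {x y : V}

/-- **hB of `card_le_list`.** -/
theorem SetUp.leaf_hB (h : SetUp F s j P x y) (hs : 3 ≤ s) :
    ∀ e ∈ P, 4 * ∑ p ∈ e.powersetCard 2, ((Helper28.Res.dg F (VS P) p : ℤ) - 2) +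
      6 * ∑ v ∈ e, (((lb F P x y x v).card : ℤ) + (lb F P x y y v).card) - 6 * ty F x y e ≤
        cB s (ty F x y e) := by
  intro e he
  have h1 := h.block_le hs he
  unfold cB
  have m1 : (0 : ℤ) ≤ max 0 (2 * (s : ℤ) - 16) := le_max_left _ _
  have m2 : 2 * (s : ℤ) - 16 ≤ max 0 (2 * (s : ℤ) - 16) := le_max_right _ _
  have m3 : (0 : ℤ) ≤ max 0 (2 * (s : ℤ) - 10) := le_max_left _ _
  have m4 : 2 * (s : ℤ) - 10 ≤ max 0 (2 * (s : ℤ) - 10) := le_max_right _ _
  rcases h1 with h1 | ⟨h0, h1⟩ | ⟨h0, h1⟩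
  · refine h1.trans ?_
    split_ifs <;> linarith
  · rw [if_pos h0]
    refine h1.trans ?_
    linarith
  · rw [if_neg (by omega), if_pos h0]
    refine h1.trans ?_
    linarith

end RouteA
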