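import Pool.Agent.Helper47.Res.LA7
import Pool.Agent.Helper13.Res.Caps
import Pool.Agent.Helper65.Res.Own

/-!
# Route A: the one-block bracket without `G'`

For a block `e` of type `t` the own pairs with weight 4 and the sets `N'_x(v)`, `N'_y(v)` with
weight 6 give together at most `18 s - 12 + 6 t` (types 0 and 1), `max (18 s) (20 s - 16)` (type 2)
and `max (18 s + 6) (20 s - 4)` (type 3).
-/

namespace RouteA

open Finset Res12 Helper1.Res

set_option linter.unusedSectionVars false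

variable {V : Type} [Fintype V] [DecidableEq V]
variable {F P : Finset (Finset V)} {s j : ℕ} {x y : V}

/-- `1` if `v` is not in `E` -/
def jj (F : Finset (Finset V)) (x y v : V) : ℤ := if v ∈ N F x y then 0 else 1

/-- the bounds for one vertex `v` of a block: `nx = |N'_x(v)|`, `ny = |N'_y(v)|`,
`R = 4 (dW(e - v) - 2) + 6 (nx + ny) - 6 J` -/
def VB (s J nx ny R : ℤ) : Prop :=
  0 ≤ nx ∧ 0 ≤ ny ∧ 0 ≤ J ∧ J ≤ 1 ∧
    ((nx = 0 ∧ ny = 0 ∧ R ≤ 4 * s - 10 ∧ (J = 0 → R ≤ 0)) ∨
      (1 ≤ nx ∧ ny = 0 ∧ R ≤ 6 * s - 4 ∧ (nx = 1 → R ≤ 6)) ∨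
      (nx = 0 ∧ 1 ≤ ny ∧ R ≤ 6 * s - 4 ∧ (ny = 1 → R ≤ 6)) ∨
      (1 ≤ nx ∧ 1 ≤ ny ∧ R ≤ 12 * s - 8 + 6 * J ∧ (nx = 1 → R ≤ 6 * s + 2) ∧
        (ny = 1 → R ≤ 6 * s + 2) ∧ (nx = 1 → ny = 1 → R ≤ 8)))

/-- the arithmetic behind `VB` -/
theorem VB_of {s J nx ny L c : ℤ} (hs : 3 ≤ s) (hJ : J = 0 ∨ J = 1) (hnx : 0 ≤ nx) (hny : 0 ≤ ny)
    (hL : 0 ≤ L) (hc2 : c ≤ 2) (hcap : L + c ≤ s + 1) (h1 : nx ≤ s + J) (h2 : ny ≤ s + J)
    (hx : 0 < nx → c ≤ 1) (hy : 0 < ny → c ≤ 1) (hxy : 0 < nx → 0 < ny → c ≤ 0)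
    (hLJ : 0 < L → J = 1) (hLx : 0 < L → 0 < nx → L = 1 ∧ nx = 1)
    (hLy : 0 < L → 0 < ny → L = 1 ∧ ny = 1) :
    VB s J nx ny (4 * (L + c - 2) + 6 * (nx + ny) - 6 * J) := by
  unfold VB
  refine ⟨hnx, hny, by omega, by omega, ?_⟩
  rcases eq_or_lt_of_le hnx with hnx0 | hnx0 <;> rcases eq_or_lt_of_le hny with hny0 | hny0
  · left
    subst hnx0 hny0
    refine ⟨rfl, rfl, ?_, ?_⟩
    · rcases eq_or_lt_of_le hL with hL0 | hL0
      · omega
      · have := hLJ hL0
        omega
    · intro hJ0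
      have : L = 0 := by
        by_contra hne
        have := hLJ (by omega)
        omega
      omega
  · right; right; left
    subst hnx0
    have hc := hy hny0
    refine ⟨rfl, by omega, ?_, ?_⟩
    · rcases eq_or_lt_of_le hL with hL0 | hL0
      · omega
      · have := hLJ hL0
        have := hLy hL0 hny0
        omega
    · intro hny1
      rcases eq_or_lt_of_le hL with hL0 | hL0
      · omega
      · have := hLJ hL0
        have := hLy hL0 hny0
        omega
  · right; left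
    subst hny0
    have hc := hx hnx0
    refine ⟨by omega, rfl, ?_, ?_⟩
    · rcases eq_or_lt_of_le hL with hL0 | hL0
      · omega
      · have := hLJ hL0
        have := hLx hL0 hnx0
        omega
    · intro hnx1
      rcases eq_or_lt_of_le hL with hL0 | hL0
      · omega
      · have := hLJ hL0
        have := hLx hL0 hnx0
        omega
  · right; right; right
    have hc := hxy hnx0 hny0
    rcases eq_or_lt_of_le hL with hL0 | hL0
    · refine ⟨by omega, by omega, by omega, ?_, ?_, ?_⟩ <;> intros <;> omega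
    · have g1 := hLJ hL0
      have g2 := hLx hL0 hnx0
      have g3 := hLy hL0 hny0
      refine ⟨by omega, by omega, by omega, ?_, ?_, ?_⟩ <;> intros <;> omega

theorem VB.two {s J nx ny R : ℤ} (h : VB s J nx ny R) :
    (nx = 0 ∨ 1 ≤ nx) ∧ (ny = 0 ∨ 1 ≤ ny) := by
  obtain ⟨h1, h2, -⟩ := h
  omega

theorem VB.noY {s J nx ny R : ℤ} (hs : 3 ≤ s) (h : VB s J nx ny R) (hy : ny = 0) :
    R ≤ 6 * s - 4 := by
  obtain ⟨-, -, -, -, h | h | h | h⟩ := h
  · omega
  · exact h.2.2.1
  · omega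
  · omega

theorem VB.noX {s J nx ny R : ℤ} (hs : 3 ≤ s) (h : VB s J nx ny R) (hx : nx = 0) :
    R ≤ 6 * s - 4 := by
  obtain ⟨-, -, -, -, h | h | h | h⟩ := h
  · omega
  · omega
  · exact h.2.2.1
  · omega

theorem VB.none {s J nx ny R : ℤ} (h : VB s J nx ny R) (hx : nx = 0) (hy : ny = 0) :
    R ≤ 4 * s - 10 ∧ (J = 0 → R ≤ 0) := by
  obtain ⟨-, -, -, -, h | h | h | h⟩ := h
  · exact h.2.2
  · omega
  · omega
  · omega

theorem VB.both {s J nx ny R : ℤ} (hs : 3 ≤ s) (h : VB s J nx ny R) :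
    R ≤ 12 * s - 8 + 6 * J := by
  obtain ⟨-, -, h0, h1, h | h | h | h⟩ := h
  · omega
  · omega
  · omega
  · exact h.2.2.1

/-- a vertex with `nx = 1` -/
theorem VB.x1 {s J nx ny R : ℤ} (_hs : 3 ≤ s) (h : VB s J nx ny R) (hx : nx = 1) :
    R ≤ 6 * s + 2 ∧ (ny = 0 ∨ ny = 1 → R ≤ 8) := by
  obtain ⟨-, -, h0, h1, h | h | h | h⟩ := h
  · omega
  · have := h.2.2.2 hx
    omega
  · omega
  · have g1 := h.2.2.2.1 hx
    have g2 := h.2.2.2.2.2 hx
    refine ⟨g1, ?_⟩
    rintro (g | g)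
    · omega
    · exact g2 g

theorem VB.y1 {s J nx ny R : ℤ} (_hs : 3 ≤ s) (h : VB s J nx ny R) (hy : ny = 1) :
    R ≤ 6 * s + 2 ∧ (nx = 0 ∨ nx = 1 → R ≤ 8) := by
  obtain ⟨-, -, h0, h1, h | h | h | h⟩ := h
  · omega
  · omega
  · have := h.2.2.2 hy
    omega
  · have g1 := h.2.2.2.2.1 hy
    have g2 := h.2.2.2.2.2
    refine ⟨g1, ?_⟩
    rintro (g | g)
    · omega
    · exact g2 g hy

/-- `nx > 0` at one vertex and `ny > 0` at another one -/
theorem VB_cross {s J1 J2 J3 x1 x2 x3 y1 y2 y3 R1 R2 R3 : ℤ} (hs : 3 ≤ s)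
    (h1 : VB s J1 x1 y1 R1) (h2 : VB s J2 x2 y2 R2) (h3 : VB s J3 x3 y3 R3)
    (hx : 1 ≤ x1) (hy : 1 ≤ y2)
    (c12 : 1 ≤ x1 → 1 ≤ y2 → x1 = 1 ∧ y2 = 1) (c13 : 1 ≤ x1 → 1 ≤ y3 → x1 = 1 ∧ y3 = 1)
    (c21 : 1 ≤ x2 → 1 ≤ y1 → x2 = 1 ∧ y1 = 1) (c32 : 1 ≤ x3 → 1 ≤ y2 → x3 = 1 ∧ y2 = 1) :
    R1 + R2 + R3 ≤ 18 * s - 12 := by
  obtain ⟨g1, g2⟩ := c12 hx hy
  have a1 := h1.x1 hs g1
  have a2 := h2.y1 hs g2
  -- the third vertex
  have a3 : R3 ≤ 4 * s - 10 ∨ R3 ≤ 8 := by
    rcases h3.two with ⟨x0 | x0, y0 | y0⟩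
    · exact Or.inl (h3.none x0 y0).1
    · exact Or.inr ((h3.y1 hs (c13 hx y0).2).2 (Or.inl x0))
    · exact Or.inr ((h3.x1 hs (c32 x0 hy).1).2 (Or.inl y0))
    · exact Or.inr ((h3.y1 hs (c13 hx y0).2).2 (Or.inr (c32 x0 hy).1))
  -- not both of the first two are large
  have a4 : R1 ≤ 8 ∨ R2 ≤ 8 := by
    rcases h1.two with ⟨-, y0 | y0⟩
    · exact Or.inl (a1.2 (Or.inl y0))
    · rcases h2.two with ⟨x0 | x0, -⟩
      · exact Or.inr (a2.2 (Or.inl x0))
      · exact Or.inr (a2.2 (Or.inr (c21 x0 y0).1))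
  have b1 := a1.1
  have b2 := a2.1
  rcases a3 with a3 | a3 <;> rcases a4 with a4 | a4 <;> linarith

/-- `nx > 0` and `ny > 0` at one vertex only -/
theorem VB_same {s J1 J2 J3 x1 x2 x3 y1 y2 y3 R1 R2 R3 : ℤ} (hs : 3 ≤ s)
    (h1 : VB s J1 x1 y1 R1) (h2 : VB s J2 x2 y2 R2) (h3 : VB s J3 x3 y3 R3)
    (hx2 : x2 = 0) (hx3 : x3 = 0) (hy2 : y2 = 0) (hy3 : y3 = 0) :
    R1 + R2 + R3 ≤ 18 * s - 12 ∨ (J1 + J2 + J3 = 2 ∧ R1 + R2 + R3 ≤ 20 * s - 28) ∨
      (J1 + J2 + J3 = 3 ∧ R1 + R2 + R3 ≤ 20 * s - 22) := by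
  have a1 := h1.both hs
  have a2 := h2.none hx2 hy2
  have a3 := h3.none hx3 hy3
  have b1 := h1.2.2
  have b2 := h2.2.2
  have b3 := h3.2.2
  have c1 : J1 = 0 ∨ J1 = 1 := by omega
  have c2 : J2 = 0 ∨ J2 = 1 := by omega
  have c3 : J3 = 0 ∨ J3 = 1 := by omega
  clear h1 h2 h3 b1 b2 b3
  obtain ⟨a2, a2'⟩ := a2
  obtain ⟨a3, a3'⟩ := a3
  rcases c1 with rfl | rfl <;> rcases c2 with rfl | rfl <;> rcases c3 with rfl | rfl <;>
    simp only [forall_const, one_ne_zero, false_imp_iff] at a2' a3'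
  · left; linarith
  · left; linarith
  · left; linarith
  · right; left
    constructor
    · norm_num
    · linarith
  · left; linarith
  · left; linarith
  · left; linarith
  · right; right
    constructor
    · norm_num
    · linarith

/-- three vertices -/
theorem VB_sum {s J1 J2 J3 x1 x2 x3 y1 y2 y3 R1 R2 R3 : ℤ} (hs : 3 ≤ s)
    (h1 : VB s J1 x1 y1 R1) (h2 : VB s J2 x2 y2 R2) (h3 : VB s J3 x3 y3 R3)
    (c12 : 1 ≤ x1 → 1 ≤ y2 → x1 = 1 ∧ y2 = 1) (c13 : 1 ≤ x1 → 1 ≤ y3 → x1 = 1 ∧ y3 = 1)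
    (c21 : 1 ≤ x2 → 1 ≤ y1 → x2 = 1 ∧ y1 = 1) (c23 : 1 ≤ x2 → 1 ≤ y3 → x2 = 1 ∧ y3 = 1)
    (c31 : 1 ≤ x3 → 1 ≤ y1 → x3 = 1 ∧ y1 = 1) (c32 : 1 ≤ x3 → 1 ≤ y2 → x3 = 1 ∧ y2 = 1) :
    R1 + R2 + R3 ≤ 18 * s - 12 ∨ (J1 + J2 + J3 = 2 ∧ R1 + R2 + R3 ≤ 20 * s - 28) ∨
      (J1 + J2 + J3 = 3 ∧ R1 + R2 + R3 ≤ 20 * s - 22) := by
  rcases h1.two with ⟨p1, q1⟩
  rcases h2.two with ⟨p2, q2⟩
  rcases h3.two with ⟨p3, q3⟩
  by_cases k12 : 1 ≤ x1 ∧ 1 ≤ y2
  · exact Or.inl (VB_cross hs h1 h2 h3 k12.1 k12.2 c12 c13 c21 c32)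
  by_cases k13 : 1 ≤ x1 ∧ 1 ≤ y3
  · have := VB_cross hs h1 h3 h2 k13.1 k13.2 c13 c12 c31 c23
    left; linarith
  by_cases k21 : 1 ≤ x2 ∧ 1 ≤ y1
  · have := VB_cross hs h2 h1 h3 k21.1 k21.2 c21 c23 c12 c31
    left; linarith
  by_cases k23 : 1 ≤ x2 ∧ 1 ≤ y3
  · have := VB_cross hs h2 h3 h1 k23.1 k23.2 c23 c21 c32 c13
    left; linarith
  by_cases k31 : 1 ≤ x3 ∧ 1 ≤ y1
  · have := VB_cross hs h3 h1 h2 k31.1 k31.2 c31 c32 c13 c21
    left; linarith
  by_cases k32 : 1 ≤ x3 ∧ 1 ≤ y2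
  · have := VB_cross hs h3 h2 h1 k32.1 k32.2 c32 c31 c23 c12
    left; linarith
  rcases q1 with q1 | q1
  · rcases q2 with q2 | q2
    · rcases q3 with q3 | q3
      · -- no `y`
        have a1 := h1.noY hs q1
        have a2 := h2.noY hs q2
        have a3 := h3.noY hs q3
        left; linarith
      · -- `y3` only
        have x1' : x1 = 0 := by
          rcases p1 with p1 | p1
          · exact p1
          · exact absurd ⟨p1, q3⟩ k13
        have x2' : x2 = 0 := by
          rcases p2 with p2 | p2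
          · exact p2
          · exact absurd ⟨p2, q3⟩ k23
        rcases VB_same hs h3 h1 h2 x1' x2' q1 q2 with h | h | h
        · left; linarith
        · right; left; exact ⟨by linarith [h.1], by linarith [h.2]⟩
        · right; right; exact ⟨by linarith [h.1], by linarith [h.2]⟩
    · have x1' : x1 = 0 := by
        rcases p1 with p1 | p1
        · exact p1
        · exact absurd ⟨p1, q2⟩ k12
      have x3' : x3 = 0 := by
        rcases p3 with p3 | p3
        · exact p3
        · exact absurd ⟨p3, q2⟩ k32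
      rcases q3 with q3 | q3
      · rcases VB_same hs h2 h1 h3 x1' x3' q1 q3 with h | h | h
        · left; linarith
        · right; left; exact ⟨by linarith [h.1], by linarith [h.2]⟩
        · right; right; exact ⟨by linarith [h.1], by linarith [h.2]⟩
      · have x2' : x2 = 0 := by
          rcases p2 with p2 | p2
          · exact p2
          · exact absurd ⟨p2, q3⟩ k23
        have a1 := h1.noX hs x1'
        have a2 := h2.noX hs x2'
        have a3 := h3.noX hs x3'
        left; linarith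
  · have x2' : x2 = 0 := by
      rcases p2 with p2 | p2
      · exact p2
      · exact absurd ⟨p2, q1⟩ k21
    have x3' : x3 = 0 := by
      rcases p3 with p3 | p3
      · exact p3
      · exact absurd ⟨p3, q1⟩ k31
    by_cases hx1 : x1 = 0
    · have a1 := h1.noX hs hx1
      have a2 := h2.noX hs x2'
      have a3 := h3.noX hs x3'
      left; linarith
    · have hx1' : 1 ≤ x1 := by
        rcases p1 with p1 | p1
        · exact absurd p1 hx1
        · exact p1
      have y2' : y2 = 0 := by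
        rcases q2 with q2 | q2
        · exact q2
        · exact absurd ⟨hx1', q2⟩ k12
      have y3' : y3 = 0 := by
        rcases q3 with q3 | q3
        · exact q3
        · exact absurd ⟨hx1', q3⟩ k13
      exact VB_same hs h1 h2 h3 x2' x3' y2' y3'

/-- the vertex `v` of the block `{v, q, r}` -/
theorem SetUp.vertex (h : SetUp F s j P x y) (hs : 3 ≤ s) {v q r : V}
    (he : ({v, q, r} : Finset V) ∈ P) :
    VB s (jj F x y v) (lb F P x y x v).card (lb F P x y y v).card
      (4 * ((dW F P q r : ℤ) - 2) + 6 * (((lb F P x y x v).card : ℤ) + (lb F P x y y v).card) -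
        6 * jj F x y v) := by
  have hL := h.dW_eq q r
  have hcap : dW F P q r ≤ s + 1 := h.dW_own_le he (by simp) (by simp)
  have hc2 : (N F q r ∩ {x, y}).card ≤ 2 :=
    (card_le_card inter_subset_right).trans card_le_two
  have hJ : jj F x y v = 0 ∨ jj F x y v = 1 := by
    unfold jj
    split_ifs
    · exact Or.inl rfl
    · exact Or.inr rfl
  have hn : ∀ z : V, z ∉ VS P → ((lb F P x y z v).card : ℤ) ≤ s + jj F x y v := by
    intro z hz
    unfold jj
    split_ifs with hv
    · have := h.lb_out_E_le hz hv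

      omega
    · have := h.lb_out_le hz v

      omega
  have hx : 0 < (lb F P x y x v).card → (N F q r ∩ {x, y}).card ≤ 1 := by
    intro h0
    have h1 := h.N1x he (card_pos.1 h0)
    rw [← mem_N] at h1
    refine (card_le_card (t := {x}) ?_).trans (card_singleton x).le
    intro z hz
    simp only [mem_inter, mem_insert, mem_singleton] at hz ⊢
    rcases hz.2 with h2 | h2
    · exact h2
    · rw [h2] at hz
      exact absurd hz.1 h1
  have hy : 0 < (lb F P x y y v).card → (N F q r ∩ {x, y}).card ≤ 1 := by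
    intro h0
    have h1 := h.N1y he (card_pos.1 h0)
    rw [← mem_N] at h1
    refine (card_le_card (t := {y}) ?_).trans (card_singleton y).le
    intro z hz
    simp only [mem_inter, mem_insert, mem_singleton] at hz ⊢
    rcases hz.2 with h2 | h2
    · rw [h2] at hz
      exact absurd hz.1 h1
    · exact h2
  have hxy : 0 < (lb F P x y x v).card → 0 < (lb F P x y y v).card →
      (N F q r ∩ {x, y}).card ≤ 0 := by
    intro h0 h0'
    have h1 := h.N1x he (card_pos.1 h0)
    have h1' := h.N1y he (card_pos.1 h0')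
    rw [← mem_N] at h1 h1'
    rw [Nat.le_zero, card_eq_zero, eq_empty_iff_forall_notMem]
    intro z hz
    simp only [mem_inter, mem_insert, mem_singleton] at hz
    rcases hz.2 with h2 | h2
    · rw [h2] at hz
      exact h1' hz.1
    · rw [h2] at hz
      exact h1 hz.1
  have hLJ : 0 < (lb F P x y q r).card → jj F x y v = 1 := by
    intro h0
    have he' : ({q, r, v} : Finset V) ∈ P := by
      have : ({q, r, v} : Finset V) = {v, q, r} := by
        ext z
        simp only [mem_insert, mem_singleton]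
        tauto
      rw [this]
      exact he
    have h1 := h.own_J he' (card_pos.1 h0)
    unfold jj
    rw [if_neg h1]
  have key : ∀ z : V, z ∉ VS P → z = x ∨ z = y → 0 < (lb F P x y q r).card →
      0 < (lb F P x y z v).card →
      (lb F P x y q r).card = 1 ∧ (lb F P x y z v).card = 1 := by
    intro z hz hzxy h0 h0'
    have hall : ∀ w' ∈ lb F P x y q r, ∀ w ∈ lb F P x y z v, w' = w := by
      intro w' hw' w hw
      rw [mem_lb7] at hw' hw
      rcases h.own_label_unique he hz hw.2.1 hw'.2.1 hw.1 hw'.1 with h1 | h1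
      · rcases hzxy with h2 | h2
        · exact absurd (h1.trans h2) hw'.2.2.1
        · exact absurd (h1.trans h2) hw'.2.2.2
      · exact h1
    obtain ⟨w', hw'⟩ := card_pos.1 h0
    obtain ⟨w, hw⟩ := card_pos.1 h0'
    refine ⟨le_antisymm (card_le_one.2 fun a ha b hb => ?_) h0,
      le_antisymm (card_le_one.2 fun a ha b hb => ?_) h0'⟩
    · rw [hall a ha w hw, hall b hb w hw]
    · rw [← hall w' hw' a ha, ← hall w' hw' b hb]
  have kz : ∀ z : V, z ∉ VS P → z = x ∨ z = y → (0 : ℤ) < (lb F P x y q r).card →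
      (0 : ℤ) < (lb F P x y z v).card →
      ((lb F P x y q r).card : ℤ) = 1 ∧ ((lb F P x y z v).card : ℤ) = 1 := by
    intro z hz hzz h0 h0'
    have := key z hz hzz (by exact_mod_cast h0) (by exact_mod_cast h0')
    exact ⟨by exact_mod_cast this.1, by exact_mod_cast this.2⟩
  have kxy : (0 : ℤ) < (lb F P x y x v).card → (0 : ℤ) < (lb F P x y y v).card →
      ((N F q r ∩ {x, y}).card : ℤ) ≤ 0 := by
    intro h0 h0'
    exact_mod_cast hxy (by exact_mod_cast h0) (by exact_mod_cast h0')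
  have hfin := VB_of (s := s) (J := jj F x y v) (nx := (lb F P x y x v).card)
    (ny := (lb F P x y y v).card) (L := (lb F P x y q r).card)
    (c := (N F q r ∩ {x, y}).card) (by exact_mod_cast hs) hJ (by positivity) (by positivity)
    (by positivity) (by exact_mod_cast hc2) (by rw [hL] at hcap; exact_mod_cast hcap)
    (hn x h.avx) (hn y h.avy) (fun h0 => by exact_mod_cast hx (by exact_mod_cast h0))
    (fun h0 => by exact_mod_cast hy (by exact_mod_cast h0)) kxy
    (fun h0 => hLJ (by exact_mod_cast h0)) (kz x h.avx (Or.inl rfl)) (kz y h.avy (Or.inr rfl))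
  rw [hL]
  push_cast
  exact hfin

theorem SetUp.cross_own (h : SetUp F s j P x y) {e : Finset V} (he : e ∈ P) {p q : V}
    (hp : p ∈ e) (hq : q ∈ e) (hpq : p ≠ q) :
    (1 : ℤ) ≤ (lb F P x y x p).card → (1 : ℤ) ≤ (lb F P x y y q).card →
      ((lb F P x y x p).card : ℤ) = 1 ∧ ((lb F P x y y q).card : ℤ) = 1 := by
  intro h1 h2
  obtain ⟨w, hw1, hw2⟩ := h.N2 he hp hq hpq (card_pos.1 (by exact_mod_cast h1))
    (card_pos.1 (by exact_mod_cast h2))
  rw [hw1, hw2]
  simp

theorem sum_pairs3 {M : Type} [AddCommMonoid M] (g : Finset V → M) {u v t : V} (huv : u ≠ v)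
    (hut : u ≠ t) (hvt : v ≠ t) :
    ∑ p ∈ ({u, v, t} : Finset V).powersetCard 2, g p = g {v, t} + g {u, t} + g {u, v} := by
  have h1 : ({u, v, t} : Finset V).powersetCard 2 = {{v, t}, {u, t}, {u, v}} := by
    symm
    apply Finset.eq_of_subset_of_card_le
    · intro p hp
      simp only [mem_insert, mem_singleton] at hp
      rw [mem_powersetCard]
      rcases hp with rfl | rfl | rfl
      · refine ⟨?_, card_pair hvt⟩
        intro z hz
        simp only [mem_insert, mem_singleton] at hz ⊢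
        tauto
      · refine ⟨?_, card_pair hut⟩
        intro z hz
        simp only [mem_insert, mem_singleton] at hz ⊢
        tauto
      · refine ⟨?_, card_pair huv⟩
        intro z hz
        simp only [mem_insert, mem_singleton] at hz ⊢
        tauto
    · rw [card_powersetCard, card_eq_three.2 ⟨u, v, t, huv, hut, hvt, rfl⟩]
      have n1 : ({v, t} : Finset V) ≠ {u, t} := by
        intro h
        have : v ∈ ({u, t} : Finset V) := by rw [← h]; simp
        simp only [mem_insert, mem_singleton] at this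
        rcases this with h' | h'
        · exact huv h'.symm
        · exact hvt h'
      have n2 : ({v, t} : Finset V) ≠ {u, v} := by
        intro h
        have : t ∈ ({u, v} : Finset V) := by rw [← h]; simp
        simp only [mem_insert, mem_singleton] at this
        rcases this with h' | h'
        · exact hut h'.symm
        · exact hvt h'.symm
      have n3 : ({u, t} : Finset V) ≠ {u, v} := by
        intro h
        have : t ∈ ({u, v} : Finset V) := by rw [← h]; simp
        simp only [mem_insert, mem_singleton] at this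
        rcases this with h' | h'
        · exact hut h'.symm
        · exact hvt h'.symm
      rw [card_eq_three.2 ⟨_, _, _, n1, n2, n3, rfl⟩]
      decide
  have n1 : ({v, t} : Finset V) ≠ {u, t} := by
    intro h
    have : v ∈ ({u, t} : Finset V) := by rw [← h]; simp
    simp only [mem_insert, mem_singleton] at this
    rcases this with h' | h'
    · exact huv h'.symm
    · exact hvt h'
  have n2 : ({v, t} : Finset V) ≠ {u, v} := by
    intro h
    have : t ∈ ({u, v} : Finset V) := by rw [← h]; simp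
    simp only [mem_insert, mem_singleton] at this
    rcases this with h' | h'
    · exact hut h'.symm
    · exact hvt h'.symm
  have n3 : ({u, t} : Finset V) ≠ {u, v} := by
    intro h
    have : t ∈ ({u, v} : Finset V) := by rw [← h]; simp
    simp only [mem_insert, mem_singleton] at this
    rcases this with h' | h'
    · exact hut h'.symm
    · exact hvt h'.symm
  rw [h1, Finset.sum_insert (by simp [n1, n2]), Finset.sum_insert (by simp [n3]),
    Finset.sum_singleton, add_assoc]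

theorem sum_points3 {M : Type} [AddCommMonoid M] (g : V → M) {u v t : V} (huv : u ≠ v)
    (hut : u ≠ t) (hvt : v ≠ t) :
    ∑ p ∈ ({u, v, t} : Finset V), g p = g u + g v + g t := by
  rw [Finset.sum_insert (by simp [huv, hut]), Finset.sum_insert (by simp [hvt]),
    Finset.sum_singleton, add_assoc]

theorem ty_eq_sum (F : Finset (Finset V)) (x y : V) (e : Finset V) :
    (ty F x y e : ℤ) = ∑ v ∈ e, jj F x y v := by
  unfold ty jj
  rw [card_eq_sum_ones, ← filter_notMem_eq_sdiff, sum_filter]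
  push_cast
  refine sum_congr rfl fun v _ => ?_
  split_ifs <;> simp_all

/-- **The one-block bracket without `G'`.** -/
theorem SetUp.block_le (h : SetUp F s j P x y) (hs : 3 ≤ s) {e : Finset V} (he : e ∈ P) :
    let B := 4 * ∑ p ∈ e.powersetCard 2, ((Helper28.Res.dg F (VS P) p : ℤ) - 2) +
      6 * ∑ v ∈ e, (((lb F P x y x v).card : ℤ) + (lb F P x y y v).card) - 6 * ty F x y e
    B ≤ 18 * s - 12 ∨ (ty F x y e = 2 ∧ B ≤ 20 * s - 28) ∨ (ty F x y e = 3 ∧ B ≤ 20 * s - 22) := by
  intro B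
  obtain ⟨u, v, t, huv, hut, hvt, rfl⟩ := card_eq_three.1 (h.threeP e he)
  have hu : u ∈ ({u, v, t} : Finset V) := by simp
  have hv : v ∈ ({u, v, t} : Finset V) := by simp
  have ht : t ∈ ({u, v, t} : Finset V) := by simp
  have e1 : ({v, u, t} : Finset V) = {u, v, t} := by
    ext z
    simp only [mem_insert, mem_singleton]
    tauto
  have e2 : ({t, u, v} : Finset V) = {u, v, t} := by
    ext z
    simp only [mem_insert, mem_singleton]
    tauto
  have h1 := h.vertex hs he
  have h2 := h.vertex hs (v := v) (q := u) (r := t) (by rw [e1]; exact he)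
  have h3 := h.vertex hs (v := t) (q := u) (r := v) (by rw [e2]; exact he)
  have hsub := subset_VS he
  have d1 : Helper28.Res.dg F (VS P) {v, t} = dW F P v t :=
    dg_pair h.three hvt (hsub hv) (hsub ht)
  have d2 : Helper28.Res.dg F (VS P) {u, t} = dW F P u t :=
    dg_pair h.three hut (hsub hu) (hsub ht)
  have d3 : Helper28.Res.dg F (VS P) {u, v} = dW F P u v :=
    dg_pair h.three huv (hsub hu) (hsub hv)
  have hty : (ty F x y {u, v, t} : ℤ) = jj F x y u + jj F x y v + jj F x y t := by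
    rw [ty_eq_sum, sum_points3 _ huv hut hvt]
  have hB : B = (4 * ((dW F P v t : ℤ) - 2) + 6 * (((lb F P x y x u).card : ℤ) +
      (lb F P x y y u).card) - 6 * jj F x y u) +
      (4 * ((dW F P u t : ℤ) - 2) + 6 * (((lb F P x y x v).card : ℤ) +
      (lb F P x y y v).card) - 6 * jj F x y v) +
      (4 * ((dW F P u v : ℤ) - 2) + 6 * (((lb F P x y x t).card : ℤ) +
      (lb F P x y y t).card) - 6 * jj F x y t) := by
    change 4 * ∑ p ∈ ({u, v, t} : Finset V).powersetCard 2,
      ((Helper28.Res.dg F (VS P) p : ℤ) - 2) + 6 * ∑ v ∈ ({u, v, t} : Finset V),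
        (((lb F P x y x v).card : ℤ) + (lb F P x y y v).card) - 6 * ty F x y {u, v, t} = _
    rw [sum_pairs3 _ huv hut hvt, sum_points3 _ huv hut hvt, hty, d1, d2, d3]
    ring
  have hsum := VB_sum (by exact_mod_cast hs) h1 h2 h3 (h.cross_own he hu hv huv)
    (h.cross_own he hu ht hut) (h.cross_own he hv hu huv.symm) (h.cross_own he hv ht hvt)
    (h.cross_own he ht hu hut.symm) (h.cross_own he ht hv hvt.symm)
  rw [← hB, ← hty] at hsum
  rcases hsum with h4 | h4 | h4
  · exact Or.inl h4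
  · exact Or.inr (Or.inl ⟨by exact_mod_cast h4.1, h4.2⟩)
  · exact Or.inr (Or.inr ⟨by exact_mod_cast h4.1, h4.2⟩)

end RouteA
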